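import Pool.Agent.R165.Poly.Shift

/-!
# MP_ded0ac_co: perimeter-to-area ratio of shifted (n+1, n)-setups

The plane is `ℂ`. `regVertices n z` is the vertex set of the regular `n`-gon centred at `0` with
vertex `z`, `regPolygon n z` its convex hull, `IsBasicSetup`, `IsMarking` and `shiftedUnion` are
the notions of the problem, and `ratio S` is the one-dimensional Hausdorff measure of the frontier
of `S` divided by the area of `S`.
-/

set_option autoImplicit false

open MeasureTheory Set
open scoped Real

namespace Pool.Agent.Results.MP_ded0ac_co.ShiftedSuccSetups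

open Pool.Agent.R165.Poly (IsBasicSetup IsMarking shiftedUnion ratio ratio_iff exists_setup)

/-- For every `n ≥ 3` basic `(n+1, n)`-setups with admissible markings exist, and for each of
them the union of the polygons translated by `ε a_i` has a perimeter-to-area ratio larger than
`4 tan (π / n)` for all sufficiently small `ε > 0`. -/
theorem result (n : ℕ) (hn : 3 ≤ n) :
    (∃ z a : Fin (n + 1) → ℂ, IsBasicSetup (n + 1) n z ∧ IsMarking (n + 1) n z a) ∧
    ∀ z a : Fin (n + 1) → ℂ, IsBasicSetup (n + 1) n z → IsMarking (n + 1) n z a →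
      ∃ ε₀ > 0, ∀ ε : ℝ, 0 < ε → ε < ε₀ →
        4 * Real.tan (π / n) < ratio (shiftedUnion n z a ε) := by
  have hk : 1 ≤ n + 1 := by omega
  have hkn : (n + 1).Coprime n := by simp
  refine ⟨exists_setup hk hn hkn, fun z a hz ha => ?_⟩
  obtain ⟨ε₀, h0, h⟩ := ratio_iff hk hn hkn hz ha
  refine ⟨ε₀, h0, fun ε h1 h2 => (h ε h1 h2).2 ⟨by omega, ?_⟩⟩
  exact (Nat.add_modEq_left (n := n) (a := 1))

end Pool.Agent.Results.MP_ded0ac_co.ShiftedSuccSetups
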